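import Pool.Agent.Q264.KS.Stm

/-!
# Project KS: norming vectors
-/

set_option autoImplicit false

universe u

namespace Pool.Agent.Q252.KS

open Pool.Agent.Q264.KS

theorem t_SELN : S_SELN.{u} := by
  intro X _ _ _ _ g
  have : ProperSpace X := FiniteDimensional.proper ℝ X
  obtain ⟨x, hx, hmax⟩ := (isCompact_sphere (0 : X) 1).exists_isMaxOn
    (NormedSpace.sphere_nonempty.2 zero_le_one) g.continuous.continuousOn
  have hx1 : ‖x‖ = 1 := by simpa using hx
  have hle : ∀ z : X, ‖z‖ = 1 → g z ≤ g x := fun z hz => hmax (by simpa using hz)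
  have h0 : 0 ≤ g x := by
    have h1 := hle (-x) (by rw [norm_neg, hx1])
    rw [map_neg] at h1
    linarith
  refine ⟨x, hx1, le_antisymm ?_ ?_⟩
  · have h1 := g.le_opNorm x
    rw [hx1, mul_one] at h1
    exact (le_abs_self _).trans h1
  · refine g.opNorm_le_bound h0 fun z => ?_
    by_cases hz : z = 0
    · simp [hz]
    · have hz0 : 0 < ‖z‖ := norm_pos_iff.2 hz
      have h1 : ‖(‖z‖⁻¹ : ℝ) • z‖ = 1 := by
        rw [norm_smul, norm_inv, norm_norm, inv_mul_cancel₀ hz0.ne']
      have h2 := hle _ h1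
      have h3 := hle (-((‖z‖⁻¹ : ℝ) • z)) (by rw [norm_neg, h1])
      rw [map_neg, map_smul, smul_eq_mul] at h3
      rw [map_smul, smul_eq_mul] at h2
      rw [Real.norm_eq_abs, abs_le]
      have h4 : g z = ‖z‖ * (‖z‖⁻¹ * g z) := by
        rw [← mul_assoc, mul_inv_cancel₀ hz0.ne', one_mul]
      constructor <;> rw [h4] <;> nlinarith

end Pool.Agent.Q252.KS
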