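import Pool.Agent.Q173.KS.Stm

set_option autoImplicit false

namespace Pool.Agent.Q252.KS

open Pool.Agent.Q173.KS Finset

section
variable {I : Type} [Fintype I] [DecidableEq I] {c : ℕ}

/-- the main pairs -/
def e1 (I : Type) (c : ℕ) : Bool × I ↪ Bool × (I ⊕ Fin c) :=
  ⟨fun x => (x.1, Sum.inl x.2), fun x y h => by
    rw [Prod.mk.injEq, Sum.inl.injEq] at h
    exact Prod.ext h.1 h.2⟩

/-- the special pairs -/
def e2 (I : Type) (c : ℕ) : Bool × Fin c ↪ Bool × (I ⊕ Fin c) :=
  ⟨fun x => (x.1, Sum.inr x.2), fun x y h => by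
    rw [Prod.mk.injEq, Sum.inr.injEq] at h
    exact Prod.ext h.1 h.2⟩

lemma e1_apply (x : Bool × I) : e1 I c x = (x.1, Sum.inl x.2) := rfl

lemma e2_apply (x : Bool × Fin c) : e2 I c x = (x.1, Sum.inr x.2) := rfl

/-- the main part of a set -/
def S1 (S : Finset (Bool × (I ⊕ Fin c))) : Finset (Bool × I) := univ.filter fun x => e1 I c x ∈ S

/-- the special part of a set -/
def S2 (S : Finset (Bool × (I ⊕ Fin c))) : Finset (Bool × Fin c) :=
  univ.filter fun x => e2 I c x ∈ S

lemma mem_S1 {S : Finset (Bool × (I ⊕ Fin c))} {x : Bool × I} : x ∈ S1 S ↔ e1 I c x ∈ S := by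
  simp [S1]

lemma mem_S2 {S : Finset (Bool × (I ⊕ Fin c))} {x : Bool × Fin c} : x ∈ S2 S ↔ e2 I c x ∈ S := by
  simp [S2]

lemma prod_split (S : Finset (Bool × (I ⊕ Fin c))) (f : Bool × (I ⊕ Fin c) → ℝ) :
    ∏ x ∈ S, f x = (∏ y ∈ S1 S, f (e1 I c y)) * ∏ z ∈ S2 S, f (e2 I c z) := by
  have h : S = (S1 S).map (e1 I c) ∪ (S2 S).map (e2 I c) := by
    ext ⟨b, i | t⟩
    · constructor
      · intro h
        exact mem_union_left _ (mem_map.2 ⟨(b, i), mem_S1.2 h, rfl⟩)
      · intro h
        rcases mem_union.1 h with h | h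
        · obtain ⟨y, hy, he⟩ := mem_map.1 h
          rw [← he]
          exact mem_S1.1 hy
        · obtain ⟨y, hy, he⟩ := mem_map.1 h
          rw [e2_apply, Prod.mk.injEq] at he
          exact absurd he.2 (by simp)
    · constructor
      · intro h
        exact mem_union_right _ (mem_map.2 ⟨(b, t), mem_S2.2 h, rfl⟩)
      · intro h
        rcases mem_union.1 h with h | h
        · obtain ⟨y, hy, he⟩ := mem_map.1 h
          rw [e1_apply, Prod.mk.injEq] at he
          exact absurd he.2 (by simp)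
        · obtain ⟨y, hy, he⟩ := mem_map.1 h
          rw [← he]
          exact mem_S2.1 hy
  have hd : Disjoint ((S1 S).map (e1 I c)) ((S2 S).map (e2 I c)) := by
    rw [disjoint_left]
    intro x hx hy
    obtain ⟨y, -, rfl⟩ := mem_map.1 hx
    obtain ⟨z, -, he⟩ := mem_map.1 hy
    rw [e1_apply, e2_apply, Prod.mk.injEq] at he
    exact absurd he.2 (by simp)
  conv_lhs => rw [h]
  rw [prod_union hd, prod_map, prod_map]

lemma phi_split (S : Finset (Bool × (I ⊕ Fin c))) (σ : Equiv.Perm (Bool × I))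
    (ρ : Equiv.Perm (Bool × Fin c)) :
    Phi0 (S.map (ρ.viaEmbedding (e2 I c) * σ.viaEmbedding (e1 I c)).toEmbedding) =
      Phi0 ((S1 S).map σ.toEmbedding) * Phi0 ((S2 S).map ρ.toEmbedding) := by
  unfold Phi0
  rw [prod_map, prod_map, prod_map, prod_split]
  congr 1
  · refine prod_congr rfl fun y _ => ?_
    have h1 : (ρ.viaEmbedding (e2 I c) * σ.viaEmbedding (e1 I c)) (e1 I c y) = e1 I c (σ y) := by
      rw [Equiv.Perm.mul_apply, Equiv.Perm.viaEmbedding_apply,
        Equiv.Perm.viaEmbedding_apply_of_notMem]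
      rintro ⟨z, hz⟩
      rw [e1_apply, e2_apply, Prod.mk.injEq] at hz
      exact absurd hz.2 (by simp)
    show sg ((ρ.viaEmbedding (e2 I c) * σ.viaEmbedding (e1 I c)) (e1 I c y)) = sg (σ y)
    rw [h1]
    rfl
  · refine prod_congr rfl fun z _ => ?_
    have h1 : (ρ.viaEmbedding (e2 I c) * σ.viaEmbedding (e1 I c)) (e2 I c z) = e2 I c (ρ z) := by
      rw [Equiv.Perm.mul_apply, Equiv.Perm.viaEmbedding_apply_of_notMem σ (e1 I c),
        Equiv.Perm.viaEmbedding_apply]
      rintro ⟨y, hy⟩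
      rw [e1_apply, e2_apply, Prod.mk.injEq] at hy
      exact absurd hy.2 (by simp)
    show sg ((ρ.viaEmbedding (e2 I c) * σ.viaEmbedding (e1 I c)) (e2 I c z)) = sg (ρ z)
    rw [h1]
    rfl

/-- the list -/
noncomputable def lst (ℓ : List (Op (Bool × I))) (μ : Fin c → ℝ) :
    List (Op (Bool × (I ⊕ Fin c))) :=
  ℓ.map (Op.map (e1 I c)) ++ (pairsP (fun t : Fin c => (1 - μ t) / 2)).map (Op.map (e2 I c))

lemma es_split (ℓ : List (Op (Bool × I))) (μ : Fin c → ℝ) (S : Finset (Bool × (I ⊕ Fin c))) :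
    ES (lst ℓ μ) Phi0 S = ES ℓ Phi0 (S1 S) * ES (pairsP (fun t : Fin c => (1 - μ t) / 2)) Phi0 (S2 S) := by
  unfold lst
  have h0 : ES (ℓ.map (Op.map (e1 I c)) ++
      (pairsP (fun t : Fin c => (1 - μ t) / 2)).map (Op.map (e2 I c))) Phi0 S =
      EP ℓ (fun σ => EP (pairsP (fun t : Fin c => (1 - μ t) / 2)) fun ρ =>
        Phi0 (S.map (ρ.viaEmbedding (e2 I c) * σ.viaEmbedding (e1 I c)).toEmbedding)) := by
    unfold ES
    rw [EP_append, EP_map]
    congr 1
    funext σ
    rw [EP_map]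
  rw [h0]
  simp only [phi_split]
  unfold ES
  have h1 : ∀ σ : Equiv.Perm (Bool × I),
      EP (pairsP (fun t : Fin c => (1 - μ t) / 2)) (fun ρ =>
        Phi0 ((S1 S).map σ.toEmbedding) * Phi0 ((S2 S).map ρ.toEmbedding)) =
      EP (pairsP (fun t : Fin c => (1 - μ t) / 2)) (fun ρ => Phi0 ((S2 S).map ρ.toEmbedding)) *
        Phi0 ((S1 S).map σ.toEmbedding) := fun σ => by
    rw [EP_mul, mul_comm]
  simp only [h1]
  rw [EP_mul, mul_comm]

lemma val_T (hP : S_PAIRS) (μ : Fin c → ℝ) (T : Finset (Fin c)) :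
    ES (pairsP (fun t : Fin c => (1 - μ t) / 2)) Phi0 (T.map (emL (Fin c))) = ∏ t ∈ T, μ t := by
  unfold ES
  rw [hP (Fin c)]
  have h1 : ∀ D : Finset (Fin c),
      Phi0 ((T.map (emL (Fin c))).map (swD D).toEmbedding) =
        ∏ i ∈ D, (if i ∈ T then (-1 : ℝ) else 1) := fun D => by
    unfold Phi0
    rw [prod_map, prod_map]
    have h2 : ∀ t : Fin c, sg ((swD D).toEmbedding (emL (Fin c) t)) =
        if t ∈ D then (-1 : ℝ) else 1 := fun t => by
      show sg (if t ∈ D then (!false, t) else (false, t)) = _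
      split_ifs <;> simp [sg]
    simp only [h2]
    rw [prod_ite_mem, prod_ite_mem, inter_comm]
  simp only [h1]
  have h3 : ∏ t ∈ T, μ t = ∏ t : Fin c, ((1 - μ t) / 2 * (if t ∈ T then (-1 : ℝ) else 1) +
      (1 - (1 - μ t) / 2)) := by
    have h4 : ∏ t ∈ T, μ t = ∏ t : Fin c, (if t ∈ T then μ t else 1) := by
      rw [prod_ite_mem, univ_inter]
    rw [h4]
    refine prod_congr rfl fun t _ => ?_
    split_ifs <;> ring
  rw [h3, prod_add, powerset_univ]
  refine sum_congr rfl fun D _ => ?_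
  rw [prod_mul_distrib, compl_eq_univ_sdiff]
  ring

end

section
variable {I : Type} [Fintype I] [DecidableEq I] {c : ℕ}

/-- the invariance for one of the two halves -/
lemma inv {k : ℕ} {ℓ : List (Op (Bool × I))} (b : Bool)
    (h : InvOn k (univ.filter fun x : Bool × I => x.1 = b) (ES ℓ Phi0)) (μ : Fin c → ℝ) :
    InvOn k (univ.filter (fun x : Bool × (I ⊕ Fin c) => x.1 = b ∧ x.2.isLeft = true))
      (ES (lst ℓ μ) Phi0) := by
  intro S S' hS hSS hc
  rw [es_split, es_split]
  have h2 : S2 S = S2 S' := by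
    ext z
    rw [mem_S2, mem_S2]
    have h3 := Finset.ext_iff.1 hSS (e2 I c z)
    rw [mem_sdiff, mem_sdiff] at h3
    have h4 : e2 I c z ∉ univ.filter
        (fun x : Bool × (I ⊕ Fin c) => x.1 = b ∧ x.2.isLeft = true) := by
      rw [mem_filter]
      rintro ⟨-, -, h5⟩
      simp [e2_apply] at h5
    tauto
  have hcard : ∀ S : Finset (Bool × (I ⊕ Fin c)),
      (S1 S ∩ univ.filter fun x : Bool × I => x.1 = b).card =
        (S ∩ univ.filter (fun x : Bool × (I ⊕ Fin c) => x.1 = b ∧ x.2.isLeft = true)).card := by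
    intro S
    rw [← card_map (e1 I c)]
    congr 1
    ext ⟨b', i | t⟩
    · constructor
      · intro h5
        obtain ⟨y, hy, he⟩ := mem_map.1 h5
        rw [← he]
        rw [mem_inter, mem_S1, mem_filter] at hy
        exact mem_inter.2 ⟨hy.1, mem_filter.2 ⟨mem_univ _, hy.2.2, rfl⟩⟩
      · intro h5
        rw [mem_inter, mem_filter] at h5
        exact mem_map.2 ⟨(b', i), mem_inter.2 ⟨mem_S1.2 h5.1, mem_filter.2 ⟨mem_univ _, h5.2.2.1⟩⟩,
          rfl⟩
    · constructor
      · intro h5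
        obtain ⟨y, hy, he⟩ := mem_map.1 h5
        rw [e1_apply, Prod.mk.injEq] at he
        exact absurd he.2 (by simp)
      · intro h5
        rw [mem_inter, mem_filter] at h5
        simp at h5
  have h1 : (S1 S).card ≤ k := by
    refine le_trans ?_ hS
    rw [← card_map (e1 I c)]
    refine card_le_card fun x hx => ?_
    obtain ⟨y, hy, rfl⟩ := mem_map.1 hx
    exact mem_S1.1 hy
  have h5 : S1 S \ (univ.filter fun x : Bool × I => x.1 = b) =
      S1 S' \ (univ.filter fun x : Bool × I => x.1 = b) := by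
    ext y
    rw [mem_sdiff, mem_sdiff, mem_S1, mem_S1]
    have h3 := Finset.ext_iff.1 hSS (e1 I c y)
    rw [mem_sdiff, mem_sdiff] at h3
    have h4 : e1 I c y ∈ univ.filter
        (fun x : Bool × (I ⊕ Fin c) => x.1 = b ∧ x.2.isLeft = true) ↔
        y ∈ univ.filter fun x : Bool × I => x.1 = b := by
      rw [mem_filter, mem_filter]
      simp [e1_apply]
    tauto
  rw [h2, h (S1 S) (S1 S') h1 h5 (by rw [hcard, hcard, hc])]

/-- the set with the two given parts in the left half -/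
def mk (A : Finset (Bool × I)) (T : Finset (Fin c)) : Finset (Bool × (I ⊕ Fin c)) :=
  A.map (e1 I c) ∪ (T.map (emL (Fin c))).map (e2 I c)

lemma mem_mk1 {A : Finset (Bool × I)} {T : Finset (Fin c)} {x : Bool × I} :
    e1 I c x ∈ mk A T ↔ x ∈ A := by
  unfold mk
  rw [mem_union, mem_map' (e1 I c)]
  constructor
  · rintro (h | h)
    · exact h
    · obtain ⟨z, -, he⟩ := mem_map.1 h
      rw [e1_apply, e2_apply, Prod.mk.injEq] at he
      exact absurd he.2 (by simp)
  · exact Or.inl

lemma mem_mk2 {A : Finset (Bool × I)} {T : Finset (Fin c)} {z : Bool × Fin c} :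
    e2 I c z ∈ mk A T ↔ z ∈ T.map (emL (Fin c)) := by
  unfold mk
  rw [mem_union, mem_map' (e2 I c)]
  constructor
  · rintro (h | h)
    · obtain ⟨y, -, he⟩ := mem_map.1 h
      rw [e1_apply, e2_apply, Prod.mk.injEq] at he
      exact absurd he.2 (by simp)
    · exact h
  · exact Or.inr

lemma S1_mk (A : Finset (Bool × I)) (T : Finset (Fin c)) : S1 (mk A T) = A := by
  ext x
  rw [mem_S1, mem_mk1]

lemma S2_mk (A : Finset (Bool × I)) (T : Finset (Fin c)) :
    S2 (mk A T) = T.map (emL (Fin c)) := by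
  ext x
  rw [mem_S2, mem_mk2]

/-- the indices of the special part -/
def TT (S : Finset (Bool × (I ⊕ Fin c))) : Finset (Fin c) :=
  univ.filter fun t => e2 I c (false, t) ∈ S

lemma mem_TT {S : Finset (Bool × (I ⊕ Fin c))} {t : Fin c} :
    t ∈ TT S ↔ e2 I c (false, t) ∈ S := by
  simp [TT]

lemma TT_mk (A : Finset (Bool × I)) (T : Finset (Fin c)) : TT (mk A T) = T := by
  ext t
  rw [mem_TT, mem_mk2]
  constructor
  · intro h
    obtain ⟨s, hs, he⟩ := mem_map.1 h
    have : s = t := (Prod.mk.injEq _ _ _ _ ▸ he).2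
    rw [← this]
    exact hs
  · intro h
    exact mem_map.2 ⟨t, h, rfl⟩

lemma card_mk (A : Finset (Bool × I)) (T : Finset (Fin c)) : (mk A T).card = A.card + T.card := by
  unfold mk
  rw [card_union_of_disjoint, card_map, card_map, card_map]
  rw [disjoint_left]
  intro x hx hy
  obtain ⟨y, -, rfl⟩ := mem_map.1 hx
  obtain ⟨z, -, he⟩ := mem_map.1 hy
  rw [e1_apply, e2_apply, Prod.mk.injEq] at he
  exact absurd he.2 (by simp)

lemma mk_eq {S : Finset (Bool × (I ⊕ Fin c))} (hS : S ⊆ Lf (I ⊕ Fin c)) : mk (S1 S) (TT S) = S := by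
  ext ⟨b, i | t⟩
  · rw [show ((b, Sum.inl i) : Bool × (I ⊕ Fin c)) = e1 I c (b, i) from rfl, mem_mk1, mem_S1]
  · rw [show ((b, Sum.inr t) : Bool × (I ⊕ Fin c)) = e2 I c (b, t) from rfl, mem_mk2]
    constructor
    · intro h
      obtain ⟨s, hs, he⟩ := mem_map.1 h
      rw [← he]
      exact mem_TT.1 hs
    · intro h
      have h1 := hS h
      have h2 : b = false := (mem_filter.1 h1).2
      subst h2
      exact mem_map.2 ⟨t, mem_TT.2 h, rfl⟩

lemma sum_main (hP : S_PAIRS) {k : ℕ} {ℓ : List (Op (Bool × I))} {w : ℕ → ℝ}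
    (hw : ∀ S : Finset (Bool × I), S ⊆ Lf I → S.card ≤ k → ES ℓ Phi0 S = w S.card)
    (μ : Fin c → ℝ) {j : ℕ} (hj : j ≤ k) :
    ∑ S ∈ (Lf (I ⊕ Fin c)).powersetCard j, ES (lst ℓ μ) Phi0 S
        = ∑ i ∈ range (j + 1), (∑ T ∈ (univ : Finset (Fin c)).powersetCard i, ∏ t ∈ T, μ t)
            * ((Fintype.card I).choose (j - i) : ℝ) * w (j - i) := by
  have hLf : (Lf I).card = Fintype.card I := by
    have : Lf I = (univ : Finset I).map (emL I) := by
      ext ⟨b, i⟩
      rw [Lf, mem_filter, mem_map]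
      constructor
      · rintro ⟨-, h⟩
        exact ⟨i, mem_univ _, by rw [show b = false from h]; rfl⟩
      · rintro ⟨y, -, he⟩
        rw [← he]
        exact ⟨mem_univ _, rfl⟩
    rw [this, card_map, card_univ]
  rw [← sum_fiberwise_of_maps_to (t := range (j + 1)) (g := fun S => (TT S).card)]
  · refine sum_congr rfl fun i hi => ?_
    have hi' : i ≤ j := by
      rw [mem_range] at hi
      omega
    have h1 : ∑ S ∈ ((Lf (I ⊕ Fin c)).powersetCard j).filter (fun S => (TT S).card = i),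
        ES (lst ℓ μ) Phi0 S =
        ∑ q ∈ (univ : Finset (Fin c)).powersetCard i ×ˢ (Lf I).powersetCard (j - i),
          (∏ t ∈ q.1, μ t) * w (j - i) := by
      refine sum_nbij' (fun S => (TT S, S1 S)) (fun q => mk q.2 q.1) ?_ ?_ ?_ ?_ ?_
      · intro S hS
        rw [mem_filter, mem_powersetCard] at hS
        rw [mem_product, mem_powersetCard, mem_powersetCard]
        have h2 := card_mk (S1 S) (TT S)
        rw [mk_eq hS.1.1, hS.1.2, hS.2] at h2
        refine ⟨⟨subset_univ _, hS.2⟩, fun x hx => ?_, by simp only; omega⟩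
        have h3 := hS.1.1 (mem_S1.1 hx)
        exact mem_filter.2 ⟨mem_univ _, (mem_filter.1 h3).2⟩
      · rintro ⟨T, A⟩ hq
        rw [mem_product, mem_powersetCard, mem_powersetCard] at hq
        rw [mem_filter, mem_powersetCard]
        refine ⟨⟨fun x hx => ?_, ?_⟩, ?_⟩
        · rcases mem_union.1 hx with h | h
          · obtain ⟨y, hy, rfl⟩ := mem_map.1 h
            have h3 := (mem_filter.1 (hq.2.1 hy)).2
            exact mem_filter.2 ⟨mem_univ _, h3⟩
          · obtain ⟨y, hy, rfl⟩ := mem_map.1 h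
            obtain ⟨t, -, rfl⟩ := mem_map.1 hy
            exact mem_filter.2 ⟨mem_univ _, rfl⟩
        · rw [card_mk, hq.2.2, hq.1.2]
          omega
        · rw [TT_mk]
          exact hq.1.2
      · intro S hS
        rw [mem_filter, mem_powersetCard] at hS
        exact mk_eq hS.1.1
      · rintro ⟨T, A⟩ hq
        simp only [TT_mk, S1_mk]
      · intro S hS
        rw [mem_filter, mem_powersetCard] at hS
        have h2 := card_mk (S1 S) (TT S)
        rw [mk_eq hS.1.1, hS.1.2, hS.2] at h2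
        have h4 : S2 S = (TT S).map (emL (Fin c)) := by
          rw [← S2_mk (S1 S) (TT S), mk_eq hS.1.1]
        rw [es_split, h4, val_T hP, hw (S1 S) (fun x hx => ?_) (by omega),
          show (S1 S).card = j - i by omega]
        · ring
        · have h3 := hS.1.1 (mem_S1.1 hx)
          exact mem_filter.2 ⟨mem_univ _, (mem_filter.1 h3).2⟩
    rw [h1, sum_product]
    simp only [sum_const, card_powersetCard, hLf, nsmul_eq_mul]
    rw [sum_mul, sum_mul]
    refine sum_congr rfl fun T _ => ?_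
    ring
  · intro S hS
    rw [mem_powersetCard] at hS
    have h2 := card_mk (S1 S) (TT S)
    rw [mk_eq hS.1, hS.2] at h2
    rw [mem_range]
    omega

end

theorem spec (hPAIRS : S_PAIRS) : S_SPEC := by
  intro I _ _ k c ℓ hℓ hL hR w hw μ hμ
  refine ⟨lst ℓ μ, ?_, ?_, ?_, ?_, fun j hj => sum_main hPAIRS hw μ hj⟩
  · unfold lst
    refine (hℓ.map _).append (Ok.map ?_ _)
    intro o ho
    unfold pairsP at ho
    obtain ⟨t, -, rfl⟩ := List.mem_map.1 ho
    have h1 := abs_le.1 (hμ t)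
    refine ⟨?_, ?_, ?_⟩
    · intro h
      simp at h
    · simp only
      linarith [h1.2]
    · simp only
      linarith [h1.1]
  · unfold lst pairsP
    simp
  · exact inv false hL μ
  · exact inv true hR μ

end Pool.Agent.Q252.KS
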